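import Pool.Agent.Helper65_VM.Blc
import Pool.Agent.Helper7_VM.Stmts

/-!
# Squad VMV, modules BLG and BLFAR: general exponent
-/

set_option autoImplicit false

namespace Pool.Agent.VM.H65

open Pool.Agent.Helper69_Weyl (ee)

/-- The final inequality. -/
theorem final_ineq2 (r : ℕ) (hr : 2 ≤ r) (θ ε CL CE q K s T Pc N : ℝ) (hε : 0 < ε) (hCL : 0 < CL)
    (hCE : 0 < CE) (hq : 1 ≤ q) (hK : 1 ≤ K) (hKq : K ≤ q) (hT : 0 ≤ T) (hs : 0 < s)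
    (hPc0 : 0 ≤ Pc) (hPc : Pc ≤ 3 * q * s) (hN : N ≤ CE * q ^ (1 + ε) * s)
    (hsq : q ^ (θ - ε) ≤ s)
    (h : (s * K * T) ^ (2 * r) ≤ CL * K ^ (2 * (r : ℝ) + ε) * Pc ^ (2 * r - 2) * N) :
    T ≤ (CL * CE * 3 ^ (2 * r - 2)) ^ (1 / (2 * (r : ℝ))) * q ^ (1 - (1 + θ) / (2 * (r : ℝ)) + ε) := by
  obtain ⟨e, he⟩ : ∃ e : ℕ, 2 * r = e + 2 := ⟨2 * r - 2, by omega⟩
  have he' : 2 * r - 2 = e := by omega
  have her : 2 * (r : ℝ) = (e : ℝ) + 2 := by exact_mod_cast he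
  rw [he'] at h ⊢
  have hq0 : 0 < q := by linarith
  have hK0 : 0 < K := by linarith
  have hrpos : (0 : ℝ) < r := by exact_mod_cast (by omega : 0 < r)
  obtain ⟨A, hA⟩ : ∃ A : ℝ, A = CL * CE * 3 ^ e := ⟨_, rfl⟩
  have hA0 : 0 < A := by rw [hA]; positivity
  rw [← hA]
  -- the power of T
  have h1 : (s * K * T) ^ (2 * r) ≤ CL * (K ^ (2 * r) * q ^ ε) * (3 * q * s) ^ e *
      (CE * q ^ (1 + ε) * s) := by
    refine h.trans ?_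
    have h2 : K ^ (2 * (r : ℝ) + ε) ≤ K ^ (2 * r) * q ^ ε := by
      rw [Real.rpow_add hK0]
      have h3 : K ^ (2 * (r : ℝ)) = K ^ (2 * r) := by
        rw [← Real.rpow_natCast]
        push_cast
        rfl
      rw [h3]
      exact mul_le_mul_of_nonneg_left (Real.rpow_le_rpow hK0.le hKq hε.le) (by positivity)
    have h4 : Pc ^ e ≤ (3 * q * s) ^ e := pow_le_pow_left₀ hPc0 hPc e
    have h5 : CL * K ^ (2 * (r : ℝ) + ε) * Pc ^ e ≤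
        CL * (K ^ (2 * r) * q ^ ε) * (3 * q * s) ^ e := by
      refine mul_le_mul (mul_le_mul_of_nonneg_left h2 hCL.le) h4 (by positivity) (by positivity)
    refine (mul_le_mul_of_nonneg_left hN (by positivity)).trans ?_
    exact mul_le_mul_of_nonneg_right h5 (by positivity)
  have h2 : T ^ (2 * r) * q ^ (θ - ε) ≤ A * (q ^ ε * q ^ e * q ^ (1 + ε)) := by
    have h3 : T ^ (2 * r) * s ≤ A * (q ^ ε * q ^ e * q ^ (1 + ε)) := by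
      have hc : (0 : ℝ) < K ^ (2 * r) * s ^ (e + 1) := by positivity
      refine le_of_mul_le_mul_left ?_ hc
      calc K ^ (2 * r) * s ^ (e + 1) * (T ^ (2 * r) * s) = (s * K * T) ^ (2 * r) := by
            rw [mul_pow, mul_pow, he, pow_succ s (e + 1)]
            ring
        _ ≤ _ := h1
        _ = K ^ (2 * r) * s ^ (e + 1) * (A * (q ^ ε * q ^ e * q ^ (1 + ε))) := by
            rw [hA, mul_pow, mul_pow, pow_succ s e]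
            ring
    exact (mul_le_mul_of_nonneg_left hsq (by positivity)).trans h3
  have h3 : T ^ (2 * r) ≤ A * q ^ (2 * (r : ℝ) - 1 - θ + 3 * ε) := by
    have hc : (0 : ℝ) < q ^ (θ - ε) := Real.rpow_pos_of_pos hq0 _
    refine le_of_mul_le_mul_right ?_ hc
    refine h2.trans (le_of_eq ?_)
    rw [mul_assoc A, ← Real.rpow_natCast, ← Real.rpow_add hq0, ← Real.rpow_add hq0,
      ← Real.rpow_add hq0]
    congr 2
    rw [her]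
    ring
  have h4 : T = (T ^ (2 * r)) ^ (1 / (2 * (r : ℝ))) := by
    rw [← Real.rpow_natCast, ← Real.rpow_mul hT]
    have : ((2 * r : ℕ) : ℝ) * (1 / (2 * (r : ℝ))) = 1 := by
      push_cast
      field_simp
    rw [this, Real.rpow_one]
  rw [h4]
  have h5 : (0 : ℝ) ≤ 1 / (2 * (r : ℝ)) := by positivity
  refine (Real.rpow_le_rpow (by positivity) h3 h5).trans ?_
  rw [Real.mul_rpow hA0.le (Real.rpow_nonneg hq0.le _), ← Real.rpow_mul hq0.le]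
  refine mul_le_mul_of_nonneg_left ?_ (Real.rpow_nonneg hA0.le _)
  refine Real.rpow_le_rpow_of_exponent_le hq ?_
  have h6 : (2 : ℝ) ≤ r := by exact_mod_cast hr
  have h7 : (2 * (r : ℝ) - 1 - θ + 3 * ε) * (1 / (2 * (r : ℝ))) =
      1 - (1 + θ) / (2 * (r : ℝ)) + 3 * ε / (2 * (r : ℝ)) := by
    field_simp
    ring
  rw [h7]
  have h8 : 3 * ε / (2 * (r : ℝ)) ≤ ε := by
    rw [div_le_iff₀ (by positivity)]
    nlinarith
  linarith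


/-- The bound for one sum from the large sieve and the energy, with the count only for the
coefficients of the polynomial. -/
theorem core' (k : ℕ) (hk : 3 ≤ k) (θ₀ ε CE CL : ℝ) (hε : 0 < ε) (hCE : 0 < CE) (hCL : 0 < CL)
    (r : ℕ) (hr6 : 6 ≤ r)
    (lsa : ∀ (K : ℕ), 1 ≤ K → ∀ (P : Finset (ℕ × ℤ)) (θ : ℕ × ℤ → Fin k → ℝ)
      (lo hi : ℕ × ℤ → ℕ),
      (∀ p ∈ P, 1 ≤ lo p) → (∀ p ∈ P, hi p ≤ K) →
      (∑ p ∈ P, ‖∑ m ∈ Finset.Icc (lo p) (hi p),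
        ee (∑ j, θ p j * (m : ℝ) ^ ((j : ℕ) + 1))‖) ^ (2 * r) ≤
        CL * (K : ℝ) ^ (2 * (r : ℝ) + ε) * (P.card : ℝ) ^ (2 * r - 2) *
          (Nat.card {v : (ℕ × ℤ) × (ℕ × ℤ) // v.1 ∈ P ∧ v.2 ∈ P ∧
            ∀ j : Fin k, Nr (θ v.1 j - θ v.2 j) (1 / (K : ℝ) ^ ((j : ℕ) + 1))} : ℝ))
    (avg : AvgStmt) (tay : TayStmt) (q K X : ℕ) (S : Finset ℕ) (P : Polynomial ℝ)
    (hq : 1 ≤ q) (hdeg : P.natDegree ≤ k) (hX : X ≤ q) (hK1 : 1 ≤ K)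
    (hSD : ∀ d ∈ S, 1 ≤ d ∧ d * K ≤ q) (hScard : (q : ℝ) ^ (θ₀ - ε) ≤ (S.card : ℝ))
    (hcount :
        (Nat.card {v : (ℕ × ℤ) × (ℕ × ℤ) // v.1.1 ∈ S ∧ v.2.1 ∈ S ∧ |v.1.2| ≤ (q : ℤ) ∧
          |v.2.2| ≤ (q : ℤ) ∧ Close k K (P.coeff k) (P.coeff (k - 1)) (P.coeff (k - 2)) v} : ℝ) ≤
            CE * (q : ℝ) ^ (1 + ε) * (S.card : ℝ)) :
    ‖∑ n ∈ Finset.Icc (1 : ℤ) (X : ℤ), ee (P.eval (n : ℝ))‖ ≤
      (CL * CE * 3 ^ (2 * r - 2)) ^ (1 / (2 * (r : ℝ))) *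
        (q : ℝ) ^ (1 - (1 + θ₀) / (2 * (r : ℝ)) + ε) := by
  classical
  have hqR : (1 : ℝ) ≤ (q : ℝ) := by exact_mod_cast hq
  have hq0 : (0 : ℝ) < q := by linarith
  have hSpos : (0 : ℝ) < (S.card : ℝ) := lt_of_lt_of_le (Real.rpow_pos_of_pos hq0 _) hScard
  have hSne : S.Nonempty := by
    rw [← Finset.card_pos]
    exact_mod_cast hSpos
  have hKq : K ≤ q := by
    obtain ⟨d, hd⟩ := hSne
    have := hSD d hd
    nlinarith [this.1, this.2]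
  -- the coefficients
  have htay := fun p : ℕ × ℤ => tay k P (p.2 : ℝ) (p.1 : ℝ) hk hdeg
  choose θ hθ0 hθ1 hθ2 hθ3 using htay
  obtain ⟨PP, hPP⟩ : ∃ PP : Finset (ℕ × ℤ), PP = S ×ˢ Finset.Icc (-(q : ℤ)) (q : ℤ) := ⟨_, rfl⟩
  obtain ⟨f, hf⟩ : ∃ f : ℤ → ℂ, f = fun n : ℤ => ee (P.eval (n : ℝ)) := ⟨_, rfl⟩
  obtain ⟨T, hT⟩ : ∃ T : ℝ, T = ‖∑ n ∈ Finset.Icc (1 : ℤ) (X : ℤ), f n‖ := ⟨_, rfl⟩
  have hT0 : 0 ≤ T := by rw [hT]; exact norm_nonneg _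
  have hgoal : ‖∑ n ∈ Finset.Icc (1 : ℤ) (X : ℤ), ee (P.eval (n : ℝ))‖ = T := by
    rw [hT, hf]
  rw [hgoal]
  -- the inner sums
  have hinner : ∀ p ∈ PP,
      ‖∑ m ∈ (Finset.Icc 1 K).filter (fun m : ℕ => 1 ≤ p.2 + (p.1 : ℤ) * m ∧
        p.2 + (p.1 : ℤ) * m ≤ (X : ℤ)), f (p.2 + (p.1 : ℤ) * m)‖ =
      ‖∑ m ∈ Finset.Icc (lo1 p) (hi1 K X p),
        ee (∑ j : Fin k, θ p ((j : ℕ) + 1) * (m : ℝ) ^ ((j : ℕ) + 1))‖ := by
    intro p hp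
    rw [hPP, Finset.mem_product] at hp
    have hp1 := hSD p.1 hp.1
    rw [filter_eq K X p hp1.1]
    have h1 : ∀ m ∈ Finset.Icc (lo1 p) (hi1 K X p), f (p.2 + (p.1 : ℤ) * m) =
        ee (θ p 0) * ee (∑ j : Fin k, θ p ((j : ℕ) + 1) * (m : ℝ) ^ ((j : ℕ) + 1)) := by
      intro m _
      rw [hf]
      show ee (P.eval (((p.2 + (p.1 : ℤ) * m : ℤ)) : ℝ)) = _
      rw [← Pool.Agent.Helper69_Weyl.ee_add]
      congr 1
      push_cast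
      rw [hθ0 p (m : ℝ), Finset.sum_range_succ', Finset.sum_range]
      rw [pow_zero, mul_one, add_comm]
    rw [Finset.sum_congr rfl h1, ← Finset.mul_sum, norm_mul,
      Pool.Agent.Helper69_Weyl.norm_ee, one_mul]
  -- averaging
  have havg : (S.card : ℝ) * (K : ℝ) * T ≤ ∑ p ∈ PP,
      ‖∑ m ∈ Finset.Icc (lo1 p) (hi1 K X p),
        ee (∑ j : Fin k, θ p ((j : ℕ) + 1) * (m : ℝ) ^ ((j : ℕ) + 1))‖ := by
    rw [← Finset.sum_congr rfl hinner, hPP, Finset.sum_product]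
    have h1 : (S.card : ℝ) * (K : ℝ) * T = ∑ d ∈ S, (K : ℝ) * T := by
      rw [Finset.sum_const, nsmul_eq_mul]
      ring
    rw [h1]
    refine Finset.sum_le_sum fun d hd => ?_
    have hd1 := hSD d hd
    rw [hT]
    exact avg q K d X f hK1 hd1.1 hd1.2 hX
  -- the large sieve
  have hlsa := lsa K hK1 PP (fun p (j : Fin k) => θ p ((j : ℕ) + 1)) lo1 (hi1 K X)
    (fun p _ => le_max_left _ _) (fun p _ => min_le_left _ _)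
  have hmain : ((S.card : ℝ) * (K : ℝ) * T) ^ (2 * r) ≤ _ :=
    (pow_le_pow_left₀ (by positivity) havg (2 * r)).trans hlsa
  -- the number of pairs
  have hN : (Nat.card {v : (ℕ × ℤ) × (ℕ × ℤ) // v.1 ∈ PP ∧ v.2 ∈ PP ∧
      ∀ j : Fin k, Nr ((fun p (j : Fin k) => θ p ((j : ℕ) + 1)) v.1 j -
        (fun p (j : Fin k) => θ p ((j : ℕ) + 1)) v.2 j)
        (1 / (K : ℝ) ^ ((j : ℕ) + 1))} : ℝ) ≤ CE * (q : ℝ) ^ (1 + ε) * (S.card : ℝ) := by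
    refine le_trans ?_ hcount
    rw [Nat.cast_le]
    have hfin : Finite {v : (ℕ × ℤ) × (ℕ × ℤ) // v.1.1 ∈ S ∧ v.2.1 ∈ S ∧
        |v.1.2| ≤ (q : ℤ) ∧ |v.2.2| ≤ (q : ℤ) ∧
        Close k K (P.coeff k) (P.coeff (k - 1)) (P.coeff (k - 2)) v} := by
      refine Set.Finite.subset (Finset.finite_toSet (PP ×ˢ PP)) ?_
      rintro v ⟨h1, h2, h3, h4, _⟩
      rw [abs_le] at h3 h4
      rw [Finset.mem_coe, Finset.mem_product, hPP, Finset.mem_product, Finset.mem_product,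
        Finset.mem_Icc, Finset.mem_Icc]
      exact ⟨⟨h1, h3⟩, h2, h4⟩
    refine Nat.card_le_card_of_injective (fun v => ⟨v.1, ?_⟩) ?_
    · obtain ⟨v, h1, h2, h3⟩ := v
      rw [hPP, Finset.mem_product, Finset.mem_Icc] at h1 h2
      refine ⟨h1.1, h2.1, abs_le.2 h1.2, abs_le.2 h2.2, ?_, ?_, ?_⟩
      · have h4 := h3 ⟨k - 1, by omega⟩
        have h5 : (⟨k - 1, by omega⟩ : Fin k).val + 1 = k := by
          show k - 1 + 1 = k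
          omega
        simp only [h5] at h4
        rw [hθ1, hθ1] at h4
        exact h4
      · have h4 := h3 ⟨k - 2, by omega⟩
        have h5 : (⟨k - 2, by omega⟩ : Fin k).val + 1 = k - 1 := by
          show k - 2 + 1 = k - 1
          omega
        simp only [h5] at h4
        rw [hθ2, hθ2] at h4
        exact h4
      · have h4 := h3 ⟨k - 3, by omega⟩
        have h5 : (⟨k - 3, by omega⟩ : Fin k).val + 1 = k - 2 := by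
          show k - 3 + 1 = k - 2
          omega
        simp only [h5] at h4
        rw [hθ3, hθ3] at h4
        exact h4
    · intro v w hvw
      have h1 := congrArg Subtype.val hvw
      exact Subtype.ext h1
  have hPc : (PP.card : ℝ) ≤ 3 * (q : ℝ) * (S.card : ℝ) := by
    rw [hPP, Finset.card_product, Int.card_Icc]
    have h1 : ((q : ℤ) + 1 - (-(q : ℤ))).toNat = 2 * q + 1 := by omega
    rw [h1]
    push_cast
    nlinarith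
  exact final_ineq2 r (by omega) θ₀ ε CL CE q K S.card T PP.card _ hε hCL hCE hqR
    (by exact_mod_cast hK1) (by exact_mod_cast hKq) hT0 hSpos (by positivity) hPc hN hScard hmain

/-- The bound for one sum from the large sieve and the energy. -/
theorem core (k : ℕ) (hk : 3 ≤ k) (θ₀ ε CE CL : ℝ) (hε : 0 < ε) (hCE : 0 < CE) (hCL : 0 < CL)
    (r : ℕ) (hr6 : 6 ≤ r)
    (lsa : ∀ (K : ℕ), 1 ≤ K → ∀ (P : Finset (ℕ × ℤ)) (θ : ℕ × ℤ → Fin k → ℝ)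
      (lo hi : ℕ × ℤ → ℕ),
      (∀ p ∈ P, 1 ≤ lo p) → (∀ p ∈ P, hi p ≤ K) →
      (∑ p ∈ P, ‖∑ m ∈ Finset.Icc (lo p) (hi p),
        ee (∑ j, θ p j * (m : ℝ) ^ ((j : ℕ) + 1))‖) ^ (2 * r) ≤
        CL * (K : ℝ) ^ (2 * (r : ℝ) + ε) * (P.card : ℝ) ^ (2 * r - 2) *
          (Nat.card {v : (ℕ × ℤ) × (ℕ × ℤ) // v.1 ∈ P ∧ v.2 ∈ P ∧
            ∀ j : Fin k, Nr (θ v.1 j - θ v.2 j) (1 / (K : ℝ) ^ ((j : ℕ) + 1))} : ℝ))
    (avg : AvgStmt) (tay : TayStmt) (q K X : ℕ) (S : Finset ℕ) (P : Polynomial ℝ)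
    (hq : 1 ≤ q) (hdeg : P.natDegree ≤ k) (hX : X ≤ q) (hK1 : 1 ≤ K)
    (hSD : ∀ d ∈ S, 1 ≤ d ∧ d * K ≤ q) (hScard : (q : ℝ) ^ (θ₀ - ε) ≤ (S.card : ℝ))
    (hcount : ∀ s₁ s₂ : ℝ,
        (Nat.card {v : (ℕ × ℤ) × (ℕ × ℤ) // v.1.1 ∈ S ∧ v.2.1 ∈ S ∧ |v.1.2| ≤ (q : ℤ) ∧
          |v.2.2| ≤ (q : ℤ) ∧ Close k K (P.coeff k) s₁ s₂ v} : ℝ) ≤
            CE * (q : ℝ) ^ (1 + ε) * (S.card : ℝ)) :
    ‖∑ n ∈ Finset.Icc (1 : ℤ) (X : ℤ), ee (P.eval (n : ℝ))‖ ≤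
      (CL * CE * 3 ^ (2 * r - 2)) ^ (1 / (2 * (r : ℝ))) *
        (q : ℝ) ^ (1 - (1 + θ₀) / (2 * (r : ℝ)) + ε) :=
  core' k hk θ₀ ε CE CL hε hCE hCL r hr6 lsa avg tay q K X S P hq hdeg hX hK1 hSD hScard
    (hcount _ _)

/-- the trivial bound for small `q` -/
theorem small_case (q X q₁ : ℕ) (P : Polynomial ℝ) (hq : 1 ≤ q) (hX : X ≤ q) (hq1 : q < q₁) (e : ℝ) :
    ‖∑ n ∈ Finset.Icc (1 : ℤ) (X : ℤ), ee (P.eval (n : ℝ))‖ ≤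
      ((q₁ : ℝ) * (q₁ : ℝ) ^ |e|) * (q : ℝ) ^ e := by
  have h1 : ‖∑ n ∈ Finset.Icc (1 : ℤ) (X : ℤ), ee (P.eval (n : ℝ))‖ ≤ (X : ℝ) := by
    refine (norm_sum_le _ _).trans ?_
    rw [Finset.sum_congr rfl (fun n _ => Pool.Agent.Helper69_Weyl.norm_ee _)]
    simp
  have h2 : (X : ℝ) ≤ (q₁ : ℝ) := by exact_mod_cast (by omega : X ≤ q₁)
  have hqR : (1 : ℝ) ≤ (q : ℝ) := by exact_mod_cast hq
  have hq0 : (0 : ℝ) < (q : ℝ) := by linarith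
  have hq1R : (q : ℝ) ≤ (q₁ : ℝ) := by exact_mod_cast hq1.le
  have h3 : (1 : ℝ) ≤ (q₁ : ℝ) ^ |e| * (q : ℝ) ^ e := by
    have h4 : (q : ℝ) ^ |e| ≤ (q₁ : ℝ) ^ |e| :=
      Real.rpow_le_rpow hq0.le hq1R (abs_nonneg e)
    have h5 : (0 : ℝ) < (q : ℝ) ^ e := Real.rpow_pos_of_pos hq0 _
    calc (1 : ℝ) ≤ (q : ℝ) ^ (|e| + e) := Real.one_le_rpow hqR (by linarith [neg_abs_le e])
      _ = (q : ℝ) ^ |e| * (q : ℝ) ^ e := Real.rpow_add hq0 _ _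
      _ ≤ _ := mul_le_mul_of_nonneg_right h4 h5.le
  calc ‖∑ n ∈ Finset.Icc (1 : ℤ) (X : ℤ), ee (P.eval (n : ℝ))‖ ≤ (q₁ : ℝ) * 1 := by linarith
    _ ≤ (q₁ : ℝ) * ((q₁ : ℝ) ^ |e| * (q : ℝ) ^ e) :=
        mul_le_mul_of_nonneg_left h3 (by positivity)
    _ = _ := by ring

/-- BLFAR. -/
theorem blfar (k : ℕ) (θ : ℝ) (hk : 3 ≤ k) (lsa : LsaStmt k) (enf : EnFarStmt k θ)
    (avg : AvgStmt) (tay : TayStmt) : BlFarStmt k θ := by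
  intro ε hε
  obtain ⟨CE, q₀, hCE, ene⟩ := enf ε hε
  obtain ⟨CL, hCL, lsa⟩ := lsa ε hε
  obtain ⟨r, hr⟩ : ∃ r, r = tri k := ⟨_, rfl⟩
  have hr6 : 6 ≤ r := by rw [hr]; exact six_le_tri k hk
  have hr4 : (4 : ℝ) * (r : ℝ) = 2 * (k : ℝ) * ((k : ℝ) + 1) := by rw [hr]; exact tri_cast k
  have hr2 : 2 * (r : ℝ) = (k : ℝ) * ((k : ℝ) + 1) := by linarith
  rw [← hr] at lsa
  obtain ⟨e, he⟩ : ∃ e : ℝ, e = 1 - (1 + θ) / ((k : ℝ) * ((k : ℝ) + 1)) + ε := ⟨_, rfl⟩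
  obtain ⟨C1, hC1⟩ : ∃ C1 : ℝ, C1 = (CL * CE * 3 ^ (2 * r - 2)) ^ (1 / (2 * (r : ℝ))) := ⟨_, rfl⟩
  have hC1pos : 0 < C1 := by
    rw [hC1]
    exact Real.rpow_pos_of_pos (by positivity) _
  refine ⟨C1 + (q₀ : ℝ) * (q₀ : ℝ) ^ |e|, by positivity, ?_⟩
  intro q X P hq hdeg hfar hX
  rw [← he]
  have hqR : (1 : ℝ) ≤ (q : ℝ) := by exact_mod_cast hq
  have hqe : (0 : ℝ) < (q : ℝ) ^ e := Real.rpow_pos_of_pos (by linarith) _
  by_cases hq1 : q < q₀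
  · refine (small_case q X q₀ P hq hX hq1 e).trans ?_
    exact mul_le_mul_of_nonneg_right (by linarith) hqe.le
  · rw [not_lt] at hq1
    obtain ⟨K, S, hK1, hSD, hScard, hcount⟩ := ene q (P.coeff k) hq1 hq hfar
    have h := core k hk θ ε CE CL hε hCE hCL r hr6 lsa avg tay q K X S P hq hdeg hX hK1 hSD
      hScard hcount
    rw [← hC1, hr2, ← he] at h
    refine h.trans (mul_le_mul_of_nonneg_right ?_ hqe.le)
    have : (0 : ℝ) ≤ (q₀ : ℝ) * (q₀ : ℝ) ^ |e| := by positivity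
    linarith

/-- BLG. -/
theorem blg (k : ℕ) (θ : ℝ) (hk : 3 ≤ k) (lsa : LsaStmt k) (enf : EnfStmt k θ)
    (avg : AvgStmt) (tay : TayStmt) : BlgStmt k θ := by
  intro ε hε
  obtain ⟨CE, q₀, hCE, ene⟩ := enf ε hε
  obtain ⟨CL, hCL, lsa⟩ := lsa ε hε
  obtain ⟨r, hr⟩ : ∃ r, r = tri k := ⟨_, rfl⟩
  have hr6 : 6 ≤ r := by rw [hr]; exact six_le_tri k hk
  have hr4 : (4 : ℝ) * (r : ℝ) = 2 * (k : ℝ) * ((k : ℝ) + 1) := by rw [hr]; exact tri_cast k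
  have hr2 : 2 * (r : ℝ) = (k : ℝ) * ((k : ℝ) + 1) := by linarith
  rw [← hr] at lsa
  obtain ⟨e, he⟩ : ∃ e : ℝ, e = 1 - (1 + θ) / ((k : ℝ) * ((k : ℝ) + 1)) + ε := ⟨_, rfl⟩
  obtain ⟨C1, hC1⟩ : ∃ C1 : ℝ, C1 = (CL * CE * 3 ^ (2 * r - 2)) ^ (1 / (2 * (r : ℝ))) := ⟨_, rfl⟩
  have hC1pos : 0 < C1 := by
    rw [hC1]
    exact Real.rpow_pos_of_pos (by positivity) _
  refine ⟨C1 + (q₀ : ℝ) * (q₀ : ℝ) ^ |e|, by positivity, ?_⟩
  intro q X a P hq hgcd hdeg ht hX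
  rw [← he]
  have hqR : (1 : ℝ) ≤ (q : ℝ) := by exact_mod_cast hq
  have hqe : (0 : ℝ) < (q : ℝ) ^ e := Real.rpow_pos_of_pos (by linarith) _
  by_cases hq1 : q < q₀
  · refine (small_case q X q₀ P hq hX hq1 e).trans ?_
    exact mul_le_mul_of_nonneg_right (by linarith) hqe.le
  · rw [not_lt] at hq1
    obtain ⟨K, S, hK1, hSD, hScard, hcount⟩ := ene q (P.coeff k) a hq1 hq hgcd ht
    have h := core k hk θ ε CE CL hε hCE hCL r hr6 lsa avg tay q K X S P hq hdeg hX hK1 hSD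
      hScard hcount
    rw [← hC1, hr2, ← he] at h
    refine h.trans (mul_le_mul_of_nonneg_right ?_ hqe.le)
    have : (0 : ℝ) ≤ (q₀ : ℝ) * (q₀ : ℝ) ^ |e| := by positivity
    linarith

end Pool.Agent.VM.H65
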