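import Pool.Agent.VM.StmtsW

/-!
# Squad VMV, module BLC: sums of length at most `q`
-/

set_option autoImplicit false

namespace Pool.Agent.VM.H65

open Pool.Agent.Helper69_Weyl (ee)

/-- the first `m ≥ 1` with `1 ≤ n + d m` -/
def lo1 (p : ℕ × ℤ) : ℕ := max 1 (-((p.2 - 1) / (p.1 : ℤ))).toNat

/-- the last `m ≤ K` with `n + d m ≤ X` -/
def hi1 (K X : ℕ) (p : ℕ × ℤ) : ℕ := min K (((X : ℤ) - p.2) / (p.1 : ℤ)).toNat

theorem filter_eq (K X : ℕ) (p : ℕ × ℤ) (hp : 1 ≤ p.1) :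
    (Finset.Icc 1 K).filter (fun m : ℕ => 1 ≤ p.2 + (p.1 : ℤ) * m ∧
      p.2 + (p.1 : ℤ) * m ≤ (X : ℤ)) = Finset.Icc (lo1 p) (hi1 K X p) := by
  have hd : (0 : ℤ) < (p.1 : ℤ) := by exact_mod_cast hp
  ext m
  rw [Finset.mem_filter, Finset.mem_Icc, Finset.mem_Icc, lo1, hi1]
  have h1 : -(m : ℤ) ≤ (p.2 - 1) / (p.1 : ℤ) ↔ -(m : ℤ) * (p.1 : ℤ) ≤ p.2 - 1 :=
    Int.le_ediv_iff_mul_le hd
  have h2 : (m : ℤ) ≤ ((X : ℤ) - p.2) / (p.1 : ℤ) ↔ (m : ℤ) * (p.1 : ℤ) ≤ (X : ℤ) - p.2 :=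
    Int.le_ediv_iff_mul_le hd
  have h3 : (m : ℤ) * (p.1 : ℤ) = (p.1 : ℤ) * m := by ring
  have h4 : -(m : ℤ) * (p.1 : ℤ) = -((p.1 : ℤ) * m) := by ring
  rw [h3] at h2
  rw [h4] at h1
  obtain ⟨u, hu⟩ : ∃ u : ℤ, u = (p.2 - 1) / (p.1 : ℤ) := ⟨_, rfl⟩
  obtain ⟨v, hv⟩ : ∃ v : ℤ, v = ((X : ℤ) - p.2) / (p.1 : ℤ) := ⟨_, rfl⟩
  obtain ⟨w, hw⟩ : ∃ w : ℤ, w = (p.1 : ℤ) * m := ⟨_, rfl⟩
  rw [← hu, ← hw] at h1
  rw [← hv, ← hw] at h2
  rw [← hu, ← hv, ← hw]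
  constructor
  · rintro ⟨⟨h5, h6⟩, h7, h8⟩
    have h9 := h1.2 (by omega)
    have h10 := h2.2 (by omega)
    constructor <;> omega
  · rintro ⟨h5, h6⟩
    have h7 : 1 ≤ m := by omega
    have h9 : -(m : ℤ) ≤ u := by omega
    have h10 : (m : ℤ) ≤ v := by omega
    have h11 := h1.1 h9
    have h12 := h2.1 h10
    refine ⟨⟨h7, by omega⟩, by omega, by omega⟩

theorem tri_cast (k : ℕ) : (4 : ℝ) * (tri k : ℝ) = 2 * (k : ℝ) * ((k : ℝ) + 1) := by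
  have h1 : 2 * tri k = k * (k + 1) := by
    rw [tri]
    exact Nat.mul_div_cancel' (Nat.even_mul_succ_self k).two_dvd
  have h2 : (2 : ℝ) * (tri k : ℝ) = (k : ℝ) * ((k : ℝ) + 1) := by exact_mod_cast h1
  linarith

theorem six_le_tri (k : ℕ) (hk : 3 ≤ k) : 6 ≤ tri k := by
  have h1 : 2 * tri k = k * (k + 1) := by
    rw [tri]
    exact Nat.mul_div_cancel' (Nat.even_mul_succ_self k).two_dvd
  nlinarith

/-- The final inequality. -/
theorem final_ineq (r : ℕ) (hr : 2 ≤ r) (ε CL CE q K s T Pc N : ℝ) (hε : 0 < ε) (hCL : 0 < CL)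
    (hCE : 0 < CE) (hq : 1 ≤ q) (hK : 1 ≤ K) (hKq : K ≤ q) (hT : 0 ≤ T) (hs : 0 < s)
    (hPc0 : 0 ≤ Pc) (hPc : Pc ≤ 3 * q * s) (hN : N ≤ CE * q ^ (1 + ε) * s)
    (hsq : q ^ (1 / 2 - ε) ≤ s)
    (h : (s * K * T) ^ (2 * r) ≤ CL * K ^ (2 * (r : ℝ) + ε) * Pc ^ (2 * r - 2) * N) :
    T ≤ (CL * CE * 3 ^ (2 * r - 2)) ^ (1 / (2 * (r : ℝ))) * q ^ (1 - 3 / (4 * (r : ℝ)) + ε) := by
  obtain ⟨e, he⟩ : ∃ e : ℕ, 2 * r = e + 2 := ⟨2 * r - 2, by omega⟩
  have he' : 2 * r - 2 = e := by omega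
  have her : 2 * (r : ℝ) = (e : ℝ) + 2 := by exact_mod_cast he
  rw [he'] at h ⊢
  have hq0 : 0 < q := by linarith
  have hK0 : 0 < K := by linarith
  have hrpos : (0 : ℝ) < r := by exact_mod_cast (by omega : 0 < r)
  obtain ⟨A, hA⟩ : ∃ A : ℝ, A = CL * CE * 3 ^ e := ⟨_, rfl⟩
  have hA0 : 0 < A := by rw [hA]; positivity
  rw [← hA]
  -- the power of T
  have h1 : (s * K * T) ^ (2 * r) ≤ CL * (K ^ (2 * r) * q ^ ε) * (3 * q * s) ^ e *
      (CE * q ^ (1 + ε) * s) := by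
    refine h.trans ?_
    have h2 : K ^ (2 * (r : ℝ) + ε) ≤ K ^ (2 * r) * q ^ ε := by
      rw [Real.rpow_add hK0]
      have h3 : K ^ (2 * (r : ℝ)) = K ^ (2 * r) := by
        rw [← Real.rpow_natCast]
        push_cast
        rfl
      rw [h3]
      exact mul_le_mul_of_nonneg_left (Real.rpow_le_rpow hK0.le hKq hε.le) (by positivity)
    have h4 : Pc ^ e ≤ (3 * q * s) ^ e := pow_le_pow_left₀ hPc0 hPc e
    have h5 : CL * K ^ (2 * (r : ℝ) + ε) * Pc ^ e ≤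
        CL * (K ^ (2 * r) * q ^ ε) * (3 * q * s) ^ e := by
      refine mul_le_mul (mul_le_mul_of_nonneg_left h2 hCL.le) h4 (by positivity) (by positivity)
    refine (mul_le_mul_of_nonneg_left hN (by positivity)).trans ?_
    exact mul_le_mul_of_nonneg_right h5 (by positivity)
  have h2 : T ^ (2 * r) * q ^ (1 / 2 - ε) ≤ A * (q ^ ε * q ^ e * q ^ (1 + ε)) := by
    have h3 : T ^ (2 * r) * s ≤ A * (q ^ ε * q ^ e * q ^ (1 + ε)) := by
      have hc : (0 : ℝ) < K ^ (2 * r) * s ^ (e + 1) := by positivity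
      refine le_of_mul_le_mul_left ?_ hc
      calc K ^ (2 * r) * s ^ (e + 1) * (T ^ (2 * r) * s) = (s * K * T) ^ (2 * r) := by
            rw [mul_pow, mul_pow, he, pow_succ s (e + 1)]
            ring
        _ ≤ _ := h1
        _ = K ^ (2 * r) * s ^ (e + 1) * (A * (q ^ ε * q ^ e * q ^ (1 + ε))) := by
            rw [hA, mul_pow, mul_pow, pow_succ s e]
            ring
    exact (mul_le_mul_of_nonneg_left hsq (by positivity)).trans h3
  have h3 : T ^ (2 * r) ≤ A * q ^ (2 * (r : ℝ) - 3 / 2 + 3 * ε) := by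
    have hc : (0 : ℝ) < q ^ (1 / 2 - ε) := Real.rpow_pos_of_pos hq0 _
    refine le_of_mul_le_mul_right ?_ hc
    refine h2.trans (le_of_eq ?_)
    rw [mul_assoc A, ← Real.rpow_natCast, ← Real.rpow_add hq0, ← Real.rpow_add hq0,
      ← Real.rpow_add hq0]
    congr 2
    rw [her]
    ring
  have h4 : T = (T ^ (2 * r)) ^ (1 / (2 * (r : ℝ))) := by
    rw [← Real.rpow_natCast, ← Real.rpow_mul hT]
    have : ((2 * r : ℕ) : ℝ) * (1 / (2 * (r : ℝ))) = 1 := by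
      push_cast
      field_simp
    rw [this, Real.rpow_one]
  rw [h4]
  have h5 : (0 : ℝ) ≤ 1 / (2 * (r : ℝ)) := by positivity
  refine (Real.rpow_le_rpow (by positivity) h3 h5).trans ?_
  rw [Real.mul_rpow hA0.le (Real.rpow_nonneg hq0.le _), ← Real.rpow_mul hq0.le]
  refine mul_le_mul_of_nonneg_left ?_ (Real.rpow_nonneg hA0.le _)
  refine Real.rpow_le_rpow_of_exponent_le hq ?_
  have h6 : (2 : ℝ) ≤ r := by exact_mod_cast hr
  have h7 : (2 * (r : ℝ) - 3 / 2 + 3 * ε) * (1 / (2 * (r : ℝ))) =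
      1 - 3 / (4 * (r : ℝ)) + 3 * ε / (2 * (r : ℝ)) := by
    field_simp
    ring
  rw [h7]
  have h8 : 3 * ε / (2 * (r : ℝ)) ≤ ε := by
    rw [div_le_iff₀ (by positivity)]
    nlinarith
  linarith

/-- BLC. -/
theorem blc (k : ℕ) (hk : 3 ≤ k) (lsa : LsaStmt k) (ene : EneStmt k) (avg : AvgStmt)
    (tay : TayStmt) : BlcStmt k := by
  classical
  intro ε hε
  obtain ⟨c₀, hc₀, ene⟩ := ene
  obtain ⟨CE, q₀, hCE, ene⟩ := ene ε hε
  obtain ⟨CL, hCL, lsa⟩ := lsa ε hε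
  obtain ⟨r, hr⟩ : ∃ r, r = tri k := ⟨_, rfl⟩
  have hr6 : 6 ≤ r := by rw [hr]; exact six_le_tri k hk
  have hr4 : (4 : ℝ) * (r : ℝ) = 2 * (k : ℝ) * ((k : ℝ) + 1) := by rw [hr]; exact tri_cast k
  rw [← hr] at lsa
  obtain ⟨q₁, hq₁⟩ : ∃ q₁ : ℕ, q₁ = max q₀ 16 := ⟨_, rfl⟩
  obtain ⟨C1, hC1⟩ : ∃ C1 : ℝ, C1 = (CL * CE * 3 ^ (2 * r - 2)) ^ (1 / (2 * (r : ℝ))) := ⟨_, rfl⟩
  have hC1pos : 0 < C1 := by
    rw [hC1]
    exact Real.rpow_pos_of_pos (by positivity) _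
  refine ⟨C1 + q₁, by positivity, ?_⟩
  intro q X a P hq hgcd hdeg ht hX
  have hqR : (1 : ℝ) ≤ (q : ℝ) := by exact_mod_cast hq
  have hrR : (6 : ℝ) ≤ (r : ℝ) := by exact_mod_cast hr6
  rw [← hr4]
  have hexp : (0 : ℝ) ≤ 1 - 3 / (4 * (r : ℝ)) + ε := by
    have : 3 / (4 * (r : ℝ)) ≤ 1 := by
      rw [div_le_one (by positivity)]
      linarith
    linarith
  have hqp : (1 : ℝ) ≤ (q : ℝ) ^ (1 - 3 / (4 * (r : ℝ)) + ε) := Real.one_le_rpow hqR hexp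
  by_cases hq1 : q < q₁
  · -- the trivial bound
    have h1 : ‖∑ n ∈ Finset.Icc (1 : ℤ) (X : ℤ), ee (P.eval (n : ℝ))‖ ≤ (X : ℝ) := by
      refine (norm_sum_le _ _).trans ?_
      rw [Finset.sum_congr rfl (fun n _ => Pool.Agent.Helper69_Weyl.norm_ee _)]
      simp
    have h2 : (X : ℝ) ≤ (q₁ : ℝ) := by exact_mod_cast (by omega : X ≤ q₁)
    refine h1.trans (h2.trans ?_)
    have h3 : (q₁ : ℝ) * 1 ≤ (C1 + q₁) * (q : ℝ) ^ (1 - 3 / (4 * (r : ℝ)) + ε) :=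
      mul_le_mul (by linarith) hqp (by norm_num) (by positivity)
    linarith
  · rw [not_lt] at hq1
    obtain ⟨D, hD⟩ : ∃ D : ℕ, D = Nat.sqrt q / c₀ := ⟨_, rfl⟩
    obtain ⟨K, hK⟩ : ∃ K : ℕ, K = q / (4 * D) := ⟨_, rfl⟩
    obtain ⟨S, hSD, hScard, hcount⟩ := ene q D K (P.coeff k) a (by omega) hD hK hgcd ht
    have hq0 : (0 : ℝ) < q := by linarith
    have hSpos : (0 : ℝ) < (S.card : ℝ) := lt_of_lt_of_le (Real.rpow_pos_of_pos hq0 _) hScard
    have hSne : S.Nonempty := by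
      rw [← Finset.card_pos]
      exact_mod_cast hSpos
    have hD1 : 1 ≤ D := by
      obtain ⟨d, hd⟩ := hSne
      have := hSD d hd
      omega
    have hsq : Nat.sqrt q * Nat.sqrt q ≤ q := Nat.sqrt_le q
    have hsq4 : 4 ≤ Nat.sqrt q := by
      rw [Nat.le_sqrt]
      omega
    have hDs : D ≤ Nat.sqrt q := by
      rw [hD]
      exact Nat.div_le_self _ _
    have h4D : 4 * D ≤ q := by nlinarith
    have hK1 : 1 ≤ K := by
      rw [hK]
      exact (Nat.one_le_div_iff (by omega)).2 h4D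
    have hDK : K * (4 * D) ≤ q := by
      rw [hK]
      exact Nat.div_mul_le_self _ _
    have hKq : K ≤ q := by nlinarith
    -- the coefficients
    have htay := fun p : ℕ × ℤ => tay k P (p.2 : ℝ) (p.1 : ℝ) hk hdeg
    choose θ hθ0 hθ1 hθ2 hθ3 using htay
    obtain ⟨PP, hPP⟩ : ∃ PP : Finset (ℕ × ℤ), PP = S ×ˢ Finset.Icc (-(q : ℤ)) (q : ℤ) := ⟨_, rfl⟩
    obtain ⟨f, hf⟩ : ∃ f : ℤ → ℂ, f = fun n : ℤ => ee (P.eval (n : ℝ)) := ⟨_, rfl⟩
    obtain ⟨T, hT⟩ : ∃ T : ℝ, T = ‖∑ n ∈ Finset.Icc (1 : ℤ) (X : ℤ), f n‖ := ⟨_, rfl⟩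
    have hT0 : 0 ≤ T := by rw [hT]; exact norm_nonneg _
    have hgoal : ‖∑ n ∈ Finset.Icc (1 : ℤ) (X : ℤ), ee (P.eval (n : ℝ))‖ = T := by
      rw [hT, hf]
    rw [hgoal]
    -- the inner sums
    have hinner : ∀ p ∈ PP,
        ‖∑ m ∈ (Finset.Icc 1 K).filter (fun m : ℕ => 1 ≤ p.2 + (p.1 : ℤ) * m ∧
          p.2 + (p.1 : ℤ) * m ≤ (X : ℤ)), f (p.2 + (p.1 : ℤ) * m)‖ =
        ‖∑ m ∈ Finset.Icc (lo1 p) (hi1 K X p),
          ee (∑ j : Fin k, θ p ((j : ℕ) + 1) * (m : ℝ) ^ ((j : ℕ) + 1))‖ := by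
      intro p hp
      rw [hPP, Finset.mem_product] at hp
      have hp1 := hSD p.1 hp.1
      rw [filter_eq K X p (by omega)]
      have h1 : ∀ m ∈ Finset.Icc (lo1 p) (hi1 K X p), f (p.2 + (p.1 : ℤ) * m) =
          ee (θ p 0) * ee (∑ j : Fin k, θ p ((j : ℕ) + 1) * (m : ℝ) ^ ((j : ℕ) + 1)) := by
        intro m _
        rw [hf]
        show ee (P.eval (((p.2 + (p.1 : ℤ) * m : ℤ)) : ℝ)) = _
        rw [← Pool.Agent.Helper69_Weyl.ee_add]
        congr 1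
        push_cast
        rw [hθ0 p (m : ℝ), Finset.sum_range_succ', Finset.sum_range]
        rw [pow_zero, mul_one, add_comm]
      rw [Finset.sum_congr rfl h1, ← Finset.mul_sum, norm_mul,
        Pool.Agent.Helper69_Weyl.norm_ee, one_mul]
    -- averaging
    have havg : (S.card : ℝ) * (K : ℝ) * T ≤ ∑ p ∈ PP,
        ‖∑ m ∈ Finset.Icc (lo1 p) (hi1 K X p),
          ee (∑ j : Fin k, θ p ((j : ℕ) + 1) * (m : ℝ) ^ ((j : ℕ) + 1))‖ := by
      rw [← Finset.sum_congr rfl hinner, hPP, Finset.sum_product]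
      have h1 : (S.card : ℝ) * (K : ℝ) * T = ∑ d ∈ S, (K : ℝ) * T := by
        rw [Finset.sum_const, nsmul_eq_mul]
        ring
      rw [h1]
      refine Finset.sum_le_sum fun d hd => ?_
      have hd1 := hSD d hd
      rw [hT]
      exact avg q K d X f hK1 (by omega) (by nlinarith) hX
    -- the large sieve
    have hlsa := lsa K hK1 PP (fun p (j : Fin k) => θ p ((j : ℕ) + 1)) lo1 (hi1 K X)
      (fun p _ => le_max_left _ _) (fun p _ => min_le_left _ _)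
    have hmain : ((S.card : ℝ) * (K : ℝ) * T) ^ (2 * r) ≤ _ :=
      (pow_le_pow_left₀ (by positivity) havg (2 * r)).trans hlsa
    -- the number of pairs
    have hN : (Nat.card {v : (ℕ × ℤ) × (ℕ × ℤ) // v.1 ∈ PP ∧ v.2 ∈ PP ∧
        ∀ j : Fin k, Nr ((fun p (j : Fin k) => θ p ((j : ℕ) + 1)) v.1 j -
          (fun p (j : Fin k) => θ p ((j : ℕ) + 1)) v.2 j)
          (1 / (K : ℝ) ^ ((j : ℕ) + 1))} : ℝ) ≤ CE * (q : ℝ) ^ (1 + ε) * (S.card : ℝ) := by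
      refine le_trans ?_ (hcount (P.coeff (k - 1)) (P.coeff (k - 2)))
      rw [Nat.cast_le]
      have hfin : Finite {v : (ℕ × ℤ) × (ℕ × ℤ) // v.1.1 ∈ S ∧ v.2.1 ∈ S ∧
          |v.1.2| ≤ (q : ℤ) ∧ |v.2.2| ≤ (q : ℤ) ∧
          Close k K (P.coeff k) (P.coeff (k - 1)) (P.coeff (k - 2)) v} := by
        refine Set.Finite.subset (Finset.finite_toSet (PP ×ˢ PP)) ?_
        rintro v ⟨h1, h2, h3, h4, _⟩
        rw [abs_le] at h3 h4
        rw [Finset.mem_coe, Finset.mem_product, hPP, Finset.mem_product, Finset.mem_product,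
          Finset.mem_Icc, Finset.mem_Icc]
        exact ⟨⟨h1, h3⟩, h2, h4⟩
      refine Nat.card_le_card_of_injective (fun v => ⟨v.1, ?_⟩) ?_
      · obtain ⟨v, h1, h2, h3⟩ := v
        rw [hPP, Finset.mem_product, Finset.mem_Icc] at h1 h2
        refine ⟨h1.1, h2.1, abs_le.2 h1.2, abs_le.2 h2.2, ?_, ?_, ?_⟩
        · have h4 := h3 ⟨k - 1, by omega⟩
          have h5 : (⟨k - 1, by omega⟩ : Fin k).val + 1 = k := by
            show k - 1 + 1 = k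
            omega
          simp only [h5] at h4
          rw [hθ1, hθ1] at h4
          exact h4
        · have h4 := h3 ⟨k - 2, by omega⟩
          have h5 : (⟨k - 2, by omega⟩ : Fin k).val + 1 = k - 1 := by
            show k - 2 + 1 = k - 1
            omega
          simp only [h5] at h4
          rw [hθ2, hθ2] at h4
          exact h4
        · have h4 := h3 ⟨k - 3, by omega⟩
          have h5 : (⟨k - 3, by omega⟩ : Fin k).val + 1 = k - 2 := by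
            show k - 3 + 1 = k - 2
            omega
          simp only [h5] at h4
          rw [hθ3, hθ3] at h4
          exact h4
      · intro v w hvw
        have h1 := congrArg Subtype.val hvw
        exact Subtype.ext h1
    have hPc : (PP.card : ℝ) ≤ 3 * (q : ℝ) * (S.card : ℝ) := by
      rw [hPP, Finset.card_product, Int.card_Icc]
      have h1 : ((q : ℤ) + 1 - (-(q : ℤ))).toNat = 2 * q + 1 := by omega
      rw [h1]
      push_cast
      nlinarith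
    have hfinal := final_ineq r (by omega) ε CL CE q K S.card T PP.card _ hε hCL hCE hqR
      (by exact_mod_cast hK1) (by exact_mod_cast hKq) hT0 hSpos (by positivity) hPc hN hScard hmain
    rw [← hC1] at hfinal
    refine hfinal.trans (mul_le_mul_of_nonneg_right ?_ (by positivity))
    have : (0 : ℝ) ≤ (q₁ : ℝ) := by positivity
    linarith

end Pool.Agent.VM.H65
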