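import Pool.Agent.VM.StmtsW

/-!
# Squad VMV, module TAY: the coefficients of `P (n + d m)`
-/

set_option autoImplicit false

namespace Pool.Agent.VM.H65

open Pool.Agent.Helper69_Weyl (ee)

/-- TAY. -/
theorem tay : TayStmt := by
  intro k P n d hk hP
  obtain ⟨l, rfl⟩ : ∃ l, k = l + 2 := ⟨k - 2, by omega⟩
  have h1 : l + 2 - 1 = l + 1 := by omega
  have h2 : l + 2 - 2 = l := by omega
  rw [h1, h2]
  have hlow : ∀ (j : ℕ) (s : Finset ℕ), (∀ i ∈ s, i < j) →
      ∑ i ∈ s, P.coeff i * (Nat.choose i j : ℝ) * n ^ (i - j) * d ^ j = 0 := by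
    intro j s hs
    refine Finset.sum_eq_zero fun i hi => ?_
    rw [Nat.choose_eq_zero_of_lt (hs i hi)]
    simp
  have hch1 : ∀ m : ℕ, Nat.choose (m + 1) m = m + 1 := fun m => Nat.choose_succ_self_right m
  refine ⟨fun j => ∑ i ∈ Finset.range (l + 2 + 1),
    P.coeff i * (Nat.choose i j : ℝ) * n ^ (i - j) * d ^ j, ?_, ?_, ?_, ?_⟩
  · intro m
    rw [Polynomial.eval_eq_sum_range' (show P.natDegree < l + 2 + 1 by omega)]
    have h3 : ∀ i ∈ Finset.range (l + 2 + 1), P.coeff i * (n + d * m) ^ i =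
        ∑ j ∈ Finset.range (l + 2 + 1),
          P.coeff i * (Nat.choose i j : ℝ) * n ^ (i - j) * d ^ j * m ^ j := by
      intro i hi
      rw [add_comm n, add_pow, Finset.mul_sum]
      have h4 : Finset.range (i + 1) ⊆ Finset.range (l + 2 + 1) := by
        intro x hx
        rw [Finset.mem_range] at hx hi ⊢
        omega
      rw [← Finset.sum_subset h4]
      · refine Finset.sum_congr rfl fun j _ => ?_
        rw [mul_pow]
        ring
      · intro x _ hx
        rw [Finset.mem_range, not_lt] at hx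
        rw [Nat.choose_eq_zero_of_lt (show i < x by omega)]
        simp
    rw [Finset.sum_congr rfl h3, Finset.sum_comm]
    refine Finset.sum_congr rfl fun j _ => ?_
    rw [Finset.sum_mul]
  · show ∑ i ∈ Finset.range (l + 2 + 1),
      P.coeff i * (Nat.choose i (l + 2) : ℝ) * n ^ (i - (l + 2)) * d ^ (l + 2) = _
    rw [Finset.sum_range_succ, hlow (l + 2) _ (fun i hi => Finset.mem_range.1 hi)]
    simp
  · show ∑ i ∈ Finset.range (l + 2 + 1),
      P.coeff i * (Nat.choose i (l + 1) : ℝ) * n ^ (i - (l + 1)) * d ^ (l + 1) = _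
    rw [Finset.sum_range_succ, Finset.sum_range_succ,
      hlow (l + 1) _ (fun i hi => Finset.mem_range.1 hi)]
    rw [show l + 2 - (l + 1) = 1 by omega, show l + 2 = (l + 1) + 1 from rfl, hch1 (l + 1),
      Nat.choose_self, Nat.sub_self]
    push_cast
    ring
  · show ∑ i ∈ Finset.range (l + 2 + 1),
      P.coeff i * (Nat.choose i l : ℝ) * n ^ (i - l) * d ^ l = _
    rw [Finset.sum_range_succ, Finset.sum_range_succ, Finset.sum_range_succ,
      hlow l _ (fun i hi => Finset.mem_range.1 hi)]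
    rw [show l + 2 - l = 2 by omega, show l + 1 - l = 1 by omega, hch1 l,
      Nat.choose_self, Nat.sub_self, Nat.choose_symm_add]
    push_cast
    ring

end Pool.Agent.VM.H65
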