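import Pool.Agent.Helper65_VM.Blf
import Pool.Agent.Helper56_VP.Stmts

/-!
# Module BLPURE: the sums with the phase `t n ^ k + ξ n`
-/

set_option autoImplicit false

namespace Pool.Agent.VM.H65

open Pool.Agent.Helper69_Weyl (ee)
open Polynomial

/-- the phase -/
noncomputable def ph (k : ℕ) (t ξ : ℝ) : Polynomial ℝ := C t * X ^ k + C ξ * X

theorem ph_coeff_k (k : ℕ) (hk : 4 ≤ k) (t ξ : ℝ) : (ph k t ξ).coeff k = t := by
  unfold ph
  rw [coeff_add, coeff_C_mul_X_pow, coeff_C_mul_X, if_pos rfl, if_neg (by omega)]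
  ring

theorem ph_coeff_lt (k j : ℕ) (hj1 : 2 ≤ j) (hj : j < k) (t ξ : ℝ) : (ph k t ξ).coeff j = 0 := by
  unfold ph
  rw [coeff_add, coeff_C_mul_X_pow, coeff_C_mul_X, if_neg (by omega), if_neg (by omega)]
  ring

theorem ph_deg (k : ℕ) (hk : 4 ≤ k) (t ξ : ℝ) : (ph k t ξ).natDegree ≤ k := by
  rw [natDegree_le_iff_coeff_eq_zero]
  intro j hj
  unfold ph
  rw [coeff_add, coeff_C_mul_X_pow, coeff_C_mul_X, if_neg (by omega), if_neg (by omega)]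
  ring

theorem ph_sum (k N : ℕ) (t ξ : ℝ) :
    Pool.Agent.Helper69_Weyl.W k N t ξ =
      ∑ n ∈ Finset.Icc (1 : ℤ) (N : ℤ), ee ((ph k t ξ).eval (n : ℝ)) := by
  unfold Pool.Agent.Helper69_Weyl.W
  refine Finset.sum_bij' (fun n _ => (n : ℤ)) (fun n _ => n.toNat) ?_ ?_ ?_ ?_ ?_
  · intro n hn
    rw [Finset.mem_Icc] at hn ⊢
    omega
  · intro n hn
    rw [Finset.mem_Icc] at hn ⊢
    omega
  · intro n hn
    show ((n : ℤ)).toNat = n
    omega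
  · intro n hn
    rw [Finset.mem_Icc] at hn
    show ((n.toNat : ℕ) : ℤ) = n
    omega
  · intro n hn
    unfold ph
    simp

/-- BLPURE. -/
theorem blpure (k : ℕ) (θ : ℝ) (hk : 4 ≤ k) (lsa : LsaStmt k) (enp : EnPureStmt k θ)
    (avg : AvgStmt) (tay : TayStmt) : BlPureStmt k θ := by
  intro ε hε
  obtain ⟨CE, q₀, hCE, ene⟩ := enp ε hε
  obtain ⟨CL, hCL, lsa⟩ := lsa ε hε
  obtain ⟨r, hr⟩ : ∃ r, r = tri k := ⟨_, rfl⟩
  have hr6 : 6 ≤ r := by rw [hr]; exact six_le_tri k (by omega)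
  have hr4 : (4 : ℝ) * (r : ℝ) = 2 * (k : ℝ) * ((k : ℝ) + 1) := by rw [hr]; exact tri_cast k
  have hr2 : 2 * (r : ℝ) = (k : ℝ) * ((k : ℝ) + 1) := by linarith
  rw [← hr] at lsa
  obtain ⟨e, he⟩ : ∃ e : ℝ, e = 1 - (1 + θ) / ((k : ℝ) * ((k : ℝ) + 1)) + ε := ⟨_, rfl⟩
  obtain ⟨C1, hC1⟩ : ∃ C1 : ℝ, C1 = (CL * CE * 3 ^ (2 * r - 2)) ^ (1 / (2 * (r : ℝ))) := ⟨_, rfl⟩
  have hC1pos : 0 < C1 := by
    rw [hC1]
    exact Real.rpow_pos_of_pos (by positivity) _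
  refine ⟨C1 + (q₀ : ℝ) * (q₀ : ℝ) ^ |e|, by positivity, ?_⟩
  intro N t ξ hN hfar
  rw [← he, ph_sum]
  have hqR : (1 : ℝ) ≤ (N : ℝ) := by exact_mod_cast hN
  have hqe : (0 : ℝ) < (N : ℝ) ^ e := Real.rpow_pos_of_pos (by linarith) _
  by_cases hq1 : N < q₀
  · refine (small_case N N q₀ (ph k t ξ) hN le_rfl hq1 e).trans ?_
    exact mul_le_mul_of_nonneg_right (by linarith) hqe.le
  · rw [not_lt] at hq1
    obtain ⟨K, S, hK1, hSD, hScard, hcount⟩ := ene N t hq1 hN hfar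
    have h := core' k (by omega) θ ε CE CL hε hCE hCL r hr6 lsa avg tay N K N S (ph k t ξ) hN
      (ph_deg k hk t ξ) le_rfl hK1 hSD hScard (by
        rw [ph_coeff_k k hk, ph_coeff_lt k (k - 1) (by omega) (by omega),
          ph_coeff_lt k (k - 2) (by omega) (by omega)]
        exact hcount)
    rw [← hC1, hr2, ← he] at h
    refine h.trans (mul_le_mul_of_nonneg_right ?_ hqe.le)
    have : (0 : ℝ) ≤ (q₀ : ℝ) * (q₀ : ℝ) ^ |e| := by positivity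
    linarith

end Pool.Agent.VM.H65
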